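import Pool.Agent.H40E9.TR.Pair

/-!
# The stabilizers of long segments
-/

set_option autoImplicit false
set_option linter.unusedSectionVars false

namespace Pool.Agent.H40E9.TR

open Polynomial

section

variable {F K : Type} [Field F] [Field K] [Algebra F K] [CharZero K]

/-- the elements of the intersection -/
def IsB (f : Equiv.Perm (K × K)) (α β γ δ ε : K) : Prop :=
  ∀ x y : K, f (x, y) = (α * x + β * y + γ, δ * y + ε)

theorem mem_B {f : Equiv.Perm (K × K)} (h₁ : f ∈ aff F K) (h₂ : f ∈ tri F K) :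
    ∃ α β γ δ ε : K, α ≠ 0 ∧ δ ≠ 0 ∧ δ ∈ (algebraMap F K).range ∧ IsB f α β γ δ ε := by
  obtain ⟨a, b, c, a', b', c', hdet, hA, -⟩ := mem_aff h₁
  obtain ⟨u, v, w, p, hu, hv, hT⟩ := h₂
  have e1 : ∀ x y : K, a * x + b * y + c = u • x + aeval y p := fun x y =>
    congrArg Prod.fst ((hA x y).symm.trans (hT x y))
  have e2 : ∀ x y : K, a' * x + b' * y + c' = v • y + algebraMap F K w := fun x y =>
    congrArg Prod.snd ((hA x y).symm.trans (hT x y))
  have ha' : a' = 0 := by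
    have h1 := e2 0 0
    have h2 := e2 1 0
    rw [← h1] at h2
    have := congrArg (fun z => z - c') h2
    simpa using this
  subst ha'
  have hb' : b' = algebraMap F K v := by
    have h1 := e2 0 0
    have h2 := e2 0 1
    simp only [Algebra.smul_def, mul_zero, zero_add, mul_one] at h1 h2
    rw [← h1] at h2
    exact add_right_cancel h2
  refine ⟨a, b, c, b', c', ?_, ?_, ⟨v, hb'.symm⟩, fun x y => ?_⟩
  · intro h; subst h; simp at hdet
  · intro h; subst h; simp at hdet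
  · rw [hA]; simp

theorem IsB.mul {f g : Equiv.Perm (K × K)} {α β γ δ ε α' β' γ' δ' ε' : K} (hf : IsB f α β γ δ ε)
    (hg : IsB g α' β' γ' δ' ε') :
    IsB (f * g) (α * α') (α * β' + β * δ') (α * γ' + β * ε' + γ) (δ * δ') (δ * ε' + ε) := by
  intro x y
  rw [Equiv.Perm.mul_apply, hg, hf, Prod.mk.injEq]
  constructor <;> ring

/-- the coefficient `δ` -/
def dl (f : Equiv.Perm (K × K)) : K := (f (0, 1)).2 - (f (0, 0)).2

theorem IsB.dl {f : Equiv.Perm (K × K)} {α β γ δ ε : K} (hf : IsB f α β γ δ ε) : dl f = δ := by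
  rw [TR.dl, hf, hf]; simp

/-- a transition at an affine vertex -/
theorem TA {c h h' : Equiv.Perm (K × K)} (hc : c ∈ aff F K) (hc' : c ∉ tri F K)
    {α β γ δ ε α' β' γ' δ' ε' : K} (hh : IsB h α β γ δ ε) (hh' : IsB h' α' β' γ' δ' ε')
    (hE : c * h' = h * c) :
    α' = δ ∧ δ' = α ∧ (α = δ → β = 0 ∧ β' = 0) ∧ ∃ a b a' b' : K, a' ≠ 0 ∧
      (α = 1 → δ = 1 → a * γ' + b * ε' = γ ∧ a' * γ' + b' * ε' = ε) := by
  obtain ⟨a, b, c0, a', b', c0', hdet, hA, -⟩ := mem_aff hc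
  have ha' : a' ≠ 0 := hA.ne hc hc'
  have key : ∀ x y : K, (a * (α' * x + β' * y + γ') + b * (δ' * y + ε') + c0,
      a' * (α' * x + β' * y + γ') + b' * (δ' * y + ε') + c0') =
      (α * (a * x + b * y + c0) + β * (a' * x + b' * y + c0') + γ,
        δ * (a' * x + b' * y + c0') + ε) := by
    intro x y
    have := congrArg (fun f : Equiv.Perm (K × K) => f (x, y)) hE
    simp only [Equiv.Perm.mul_apply] at this
    rw [hh', hA, hA, hh] at this
    exact this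
  have k00 := key 0 0
  have k10 := key 1 0
  have k01 := key 0 1
  simp only [Prod.mk.injEq, mul_zero, zero_add, mul_one] at k00 k10 k01
  obtain ⟨p0, q0⟩ := k00
  obtain ⟨p1, q1⟩ := k10
  obtain ⟨p2, q2⟩ := k01
  have x1 : a * α' = α * a + β * a' := by linear_combination p1 - p0
  have x2 : a' * α' = δ * a' := by linear_combination q1 - q0
  have y1 : a * β' + b * δ' = α * b + β * b' := by linear_combination p2 - p0
  have y2 : a' * β' + b' * δ' = δ * b' := by linear_combination q2 - q0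
  have hα' : α' = δ := by
    apply mul_left_cancel₀ ha'
    rw [x2, mul_comm]
  subst hα'
  have hδ' : δ' = α := by
    apply mul_left_cancel₀ hdet
    linear_combination b' * x1 - a' * y1 + a * y2
  subst hδ'
  refine ⟨rfl, rfl, ?_, a, b, a', b', ha', ?_⟩
  · rintro rfl
    have hβ : β = 0 := by
      have : β * a' = 0 := by linear_combination -x1
      exact (mul_eq_zero.mp this).resolve_right ha'
    have hβ' : β' = 0 := by
      have : a' * β' = 0 := by linear_combination y2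
      exact (mul_eq_zero.mp this).resolve_left ha'
    exact ⟨hβ, hβ'⟩
  · rintro rfl rfl
    have hβ : β = 0 := by
      have : β * a' = 0 := by linear_combination -x1
      exact (mul_eq_zero.mp this).resolve_right ha'
    subst hβ
    constructor
    · linear_combination p0
    · linear_combination q0

theorem no_period {p : K[X]} (hp : 2 ≤ p.natDegree) {e κ : K}
    (h : ∀ y : K, p.eval (y + e) = p.eval y + κ) : e = 0 := by
  by_contra he
  have h1 : ∀ m : ℕ, p.eval ((m : K) * e) = p.eval 0 + m * κ := by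
    intro m
    induction m with
    | zero => simp
    | succ m ih =>
      have : ((m + 1 : ℕ) : K) * e = m * e + e := by push_cast; ring
      rw [this, h, ih]; push_cast; ring
  have h2 : p.comp (C e * X) - (C κ * X + C (p.eval 0)) = 0 := by
    apply Polynomial.eq_zero_of_infinite_isRoot
    refine (Set.infinite_range_of_injective (Nat.cast_injective (R := K))).mono ?_
    rintro _ ⟨m, rfl⟩
    have h3 := h1 m
    simp only [Set.mem_ofPred_eq, IsRoot.def, eval_sub, eval_comp, eval_mul, eval_C, eval_X,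
      eval_add]
    rw [mul_comm e, h3]; ring
  have h3 : (p.comp (C e * X)).natDegree ≤ 1 := by
    rw [sub_eq_zero.mp h2]
    exact natDegree_linear_le
  rw [natDegree_comp, natDegree_C_mul he, natDegree_X, mul_one] at h3
  omega

/-- a transition at a triangular vertex -/
theorem TJ {c h h' : Equiv.Perm (K × K)} (hc : c ∈ tri F K) (hc' : c ∉ aff F K)
    {α β γ δ ε α' β' γ' δ' ε' : K} (hδ0 : δ ≠ 0) (hh : IsB h α β γ δ ε)
    (hh' : IsB h' α' β' γ' δ' ε') (hE : c * h' = h * c) :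
    α' = α ∧ δ' = δ ∧ ∃ (n : ℕ) (a : K), 2 ≤ n ∧ a ≠ 0 ∧ α = δ ^ n ∧
      (α = 1 → δ = 1 → β = 0 → β' = 0 → ε' = 0 ∧ ε = 0 ∧ γ = a * γ') := by
  obtain ⟨a, b, c0, p, ha, hb, hT⟩ := mem_tri hc
  have hn := hT.two_le hc hc'
  have key : ∀ x y : K, (a * (α' * x + β' * y + γ') + p.eval (δ' * y + ε'),
      b * (δ' * y + ε') + c0) =
      (α * (a * x + p.eval y) + β * (b * y + c0) + γ, δ * (b * y + c0) + ε) := by
    intro x y
    have := congrArg (fun f : Equiv.Perm (K × K) => f (x, y)) hE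
    simp only [Equiv.Perm.mul_apply] at this
    rw [hh', hT, hT, hh] at this
    exact this
  have e1 : ∀ x y : K, a * (α' * x + β' * y + γ') + p.eval (δ' * y + ε') =
      α * (a * x + p.eval y) + β * (b * y + c0) + γ := fun x y => congrArg Prod.fst (key x y)
  have e2 : ∀ y : K, b * (δ' * y + ε') + c0 = δ * (b * y + c0) + ε := fun y =>
    congrArg Prod.snd (key 0 y)
  have hδ' : δ' = δ := by
    apply mul_left_cancel₀ hb
    linear_combination e2 1 - e2 0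
  subst hδ'
  have hα' : α' = α := by
    apply mul_left_cancel₀ ha
    linear_combination e1 1 0 - e1 0 0
  subst hα'
  have hε : b * ε' = ε + δ' * c0 - c0 := by linear_combination e2 0
  refine ⟨rfl, rfl, p.natDegree, a, hn, ha, ?_, ?_⟩
  · have h1 : p.comp (C δ' * X + C ε') + C (a * β') * X + C (a * γ') =
        C α' * p + C (β * b) * X + C (β * c0 + γ) := by
      apply Polynomial.funext
      intro y
      simp only [eval_add, eval_comp, eval_mul, eval_C, eval_X]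
      linear_combination e1 0 y
    have h2 := congrArg (fun q : K[X] => q.coeff p.natDegree) h1
    have h3 : (p.comp (C δ' * X + C ε')).coeff p.natDegree = p.leadingCoeff * δ' ^ p.natDegree := by
      have h4 : (C δ' * X + C ε').natDegree = 1 := natDegree_linear hδ0
      have h5 : (p.comp (C δ' * X + C ε')).natDegree = p.natDegree := by
        rw [natDegree_comp, h4, mul_one]
      have h6 := leadingCoeff_comp (p := p) (q := C δ' * X + C ε') (by rw [h4]; exact one_ne_zero)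
      rw [leadingCoeff, h5, leadingCoeff_linear hδ0] at h6
      exact h6
    have h0 : p.natDegree ≠ 0 := by omega
    have h1' : p.natDegree ≠ 1 := by omega
    simp only [coeff_add, h3, coeff_C_mul, coeff_X, coeff_C, h0, h1'.symm, if_false, mul_zero,
      add_zero, coeff_natDegree] at h2
    have hl : p.leadingCoeff ≠ 0 := by
      rw [Ne, leadingCoeff_eq_zero]
      rintro rfl
      simp at hn
    apply mul_left_cancel₀ hl
    linear_combination -h2
  · rintro rfl rfl rfl rfl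
    have h1 : ∀ y : K, p.eval (y + ε') = p.eval y + (γ - a * γ') := by
      intro y
      have := e1 0 y
      simp only [one_mul, zero_mul, mul_zero, zero_add, add_zero] at this
      linear_combination this
    have h2 := no_period hn h1
    subst h2
    refine ⟨rfl, ?_, ?_⟩
    · linear_combination -hε
    · have := h1 0
      rw [add_zero] at this
      linear_combination -this

/-! ### the bound -/

/-- roots of unity -/
def Mu (F : Type) [Field F] : Set F := {z | ∃ n : ℕ, 0 < n ∧ z ^ n = 1}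

variable (F K) in
/-- the data of an element of `Stab5` -/
structure Data (c₁ c₂ c₃ c₄ c₅ : Equiv.Perm (K × K)) : Prop where
  a1 : c₁ ∈ aff F K
  b1 : c₁ ∉ tri F K
  a2 : c₂ ∈ tri F K
  b2 : c₂ ∉ aff F K
  a3 : c₃ ∈ aff F K
  b3 : c₃ ∉ tri F K
  a4 : c₄ ∈ tri F K
  b4 : c₄ ∉ aff F K
  a5 : c₅ ∈ aff F K
  b5 : c₅ ∉ tri F K

variable {c₁ c₂ c₃ c₄ c₅ : Equiv.Perm (K × K)}

theorem rel {G : Type} [Group G] (c d h : G) : d * ((c * d)⁻¹ * h * (c * d)) = c⁻¹ * h * c * d := by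
  group

theorem chain (D : Data F K c₁ c₂ c₃ c₄ c₅) {h : Equiv.Perm (K × K)}
    (hh : h ∈ Stab5 (aff F K ⊓ tri F K) c₁ c₂ c₃ c₄ c₅) :
    (∃ z ∈ Mu F, algebraMap F K z = dl (c₁⁻¹ * h * c₁)) ∧
      (dl (c₁⁻¹ * h * c₁) = 1 → h = 1) := by
  obtain ⟨h0, h1, h2, h3, h4, h5⟩ := hh
  obtain ⟨α0, β0, γ0, δ0, ε0, hα0, hδ0, -, H0⟩ := mem_B h0.1 h0.2
  obtain ⟨α1, β1, γ1, δ1, ε1, hα1, hδ1, hr1, H1⟩ := mem_B h1.1 h1.2
  obtain ⟨α2, β2, γ2, δ2, ε2, hα2, hδ2, -, H2⟩ := mem_B h2.1 h2.2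
  obtain ⟨α3, β3, γ3, δ3, ε3, hα3, hδ3, -, H3⟩ := mem_B h3.1 h3.2
  obtain ⟨α4, β4, γ4, δ4, ε4, hα4, hδ4, -, H4⟩ := mem_B h4.1 h4.2
  obtain ⟨α5, β5, γ5, δ5, ε5, hα5, hδ5, -, H5⟩ := mem_B h5.1 h5.2
  have E1 : c₁ * (c₁⁻¹ * h * c₁) = h * c₁ := by group
  obtain ⟨e1, e1', f1, a1, b1, a1', b1', -, -⟩ := TA D.a1 D.b1 H0 H1 E1
  obtain ⟨e2, e2', n2, a2, hn2, ha2, g2, k2⟩ := TJ D.a2 D.b2 hδ1 H1 H2 (rel _ _ _)
  obtain ⟨e3, e3', f3, a3, b3, a3', b3', ha3, k3⟩ := TA D.a3 D.b3 H2 H3 (rel _ _ _)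
  obtain ⟨e4, e4', n4, a4, hn4, ha4, g4, k4⟩ := TJ D.a4 D.b4 hδ3 H3 H4 (rel _ _ _)
  obtain ⟨e5, e5', f5, a5, b5, a5', b5', -, -⟩ := TA D.a5 D.b5 H4 H5 (rel _ _ _)
  rw [H1.dl]
  constructor
  · obtain ⟨z, hz⟩ := hr1
    refine ⟨z, ⟨n2 * n4 - 1, ?_, ?_⟩, hz⟩
    · have : 2 * 2 ≤ n2 * n4 := Nat.mul_le_mul hn2 hn4
      omega
    · have h6 : δ1 ^ (n2 * n4) = δ1 := by
        rw [pow_mul, ← g2, ← e2, ← e3', ← g4, e3, e2']
      have h7 : δ1 ^ (n2 * n4 - 1) * δ1 = 1 * δ1 := by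
        rw [← pow_succ, one_mul]
        have : 2 * 2 ≤ n2 * n4 := Nat.mul_le_mul hn2 hn4
        rw [Nat.sub_add_cancel (by omega), h6]
      have h8 := mul_right_cancel₀ hδ1 h7
      rw [← hz, ← map_pow] at h8
      exact (algebraMap F K).injective (by rw [h8, map_one])
  · intro hd
    subst hd
    have hα1' : α1 = 1 := by rw [g2, one_pow]
    subst hα1'
    subst e2 e2'
    -- now `α2 = δ2 = 1`, and so on
    obtain ⟨-, hβ1⟩ := f1 (by rw [← e1, ← e1'])
    obtain ⟨hβ2, hβ3⟩ := f3 rfl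
    obtain ⟨hε2, hε1, hγ1⟩ := k2 rfl rfl hβ1 hβ2
    obtain ⟨r1, r2⟩ := k3 rfl rfl
    obtain ⟨hβ4, -⟩ := f5 (by rw [e4, e4', e3, e3'])
    obtain ⟨-, hε3, hγ3⟩ := k4 e3 e3' hβ3 hβ4
    have hγ3' : γ3 = 0 := by
      rw [hε3, hε2, mul_zero, add_zero] at r2
      exact (mul_eq_zero.mp r2).resolve_left ha3
    have hγ2 : γ2 = 0 := by
      rw [← r1, hγ3', hε3, mul_zero, mul_zero, add_zero]
    have h6 : (c₁ * c₂)⁻¹ * h * (c₁ * c₂) = 1 := by
      ext ⟨x, y⟩ : 1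
      rw [H2, hβ2, hγ2, hε2]
      simp
    have h7 : h = (c₁ * c₂) * ((c₁ * c₂)⁻¹ * h * (c₁ * c₂)) * (c₁ * c₂)⁻¹ := by group
    rw [h7, h6]
    group

theorem stab5_mul {G : Type} [Group G] {B : Subgroup G} {c₁ c₂ c₃ c₄ c₅ u v : G}
    (hu : u ∈ Stab5 B c₁ c₂ c₃ c₄ c₅) (hv : v ∈ Stab5 B c₁ c₂ c₃ c₄ c₅) :
    u⁻¹ * v ∈ Stab5 B c₁ c₂ c₃ c₄ c₅ := by
  have key : ∀ c : G, c⁻¹ * u * c ∈ B → c⁻¹ * v * c ∈ B → c⁻¹ * (u⁻¹ * v) * c ∈ B := by
    intro c h1 h2
    have := B.mul_mem (B.inv_mem h1) h2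
    convert this using 1
    group
  refine ⟨B.mul_mem (B.inv_mem hu.1) hv.1, key _ hu.2.1 hv.2.1, key _ hu.2.2.1 hv.2.2.1,
    key _ hu.2.2.2.1 hv.2.2.2.1, key _ hu.2.2.2.2.1 hv.2.2.2.2.1, key _ hu.2.2.2.2.2 hv.2.2.2.2.2⟩

theorem stab5_le (N : ℕ) (hN : (Mu F).encard ≤ N) (D : Data F K c₁ c₂ c₃ c₄ c₅) :
    (Stab5 (aff F K ⊓ tri F K) c₁ c₂ c₃ c₄ c₅).encard ≤ N := by
  have h1 : ((algebraMap F K) '' (Mu F)).encard ≤ N := (Set.encard_image_le _ _).trans hN
  refine le_trans (Set.encard_le_encard_of_injOn (f := fun h => dl (c₁⁻¹ * h * c₁)) ?_ ?_) h1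
  · intro h hh
    obtain ⟨z, hz, hz'⟩ := (chain D hh).1
    exact ⟨z, hz, hz'⟩
  · intro u hu v hv huv
    simp only at huv
    have h2 := stab5_mul hu hv
    have h3 : dl (c₁⁻¹ * (u⁻¹ * v) * c₁) = 1 := by
      obtain ⟨α, β, γ, δ, ε, -, hδ, -, Hu⟩ := mem_B hu.2.1.1 hu.2.1.2
      obtain ⟨α', β', γ', δ', ε', -, hδ', -, Hk⟩ := mem_B h2.2.1.1 h2.2.1.2
      have h4 : c₁⁻¹ * v * c₁ = (c₁⁻¹ * u * c₁) * (c₁⁻¹ * (u⁻¹ * v) * c₁) := by group
      have h5 := (Hu.mul Hk).dl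
      rw [← h4, ← huv, Hu.dl] at h5
      rw [Hk.dl]
      have h6 : δ * δ' = δ * 1 := by rw [mul_one]; exact h5.symm
      exact mul_left_cancel₀ hδ h6
    have h4 := (chain D h2).2 h3
    exact (inv_mul_eq_one.mp h4)

theorem stab5_le' (N : ℕ) (hN : (Mu F).encard ≤ N) (c₁ c₂ c₃ c₄ c₅ : ↥(gen F K))
    (D : Data F K c₁ c₂ c₃ c₄ c₅) :
    (Stab5 ((aff F K).subgroupOf (gen F K) ⊓ (tri F K).subgroupOf (gen F K))
      c₁ c₂ c₃ c₄ c₅).encard ≤ N := by
  refine le_trans (Set.encard_le_encard_of_injOn (f := fun h => (h : Equiv.Perm (K × K))) ?_ ?_)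
    (stab5_le N hN D)
  · rintro h ⟨h0, h1, h2, h3, h4, h5⟩
    exact ⟨h0, h1, h2, h3, h4, h5⟩
  · intro u _ v _ huv
    exact Subtype.ext huv

theorem gen_sup : (aff F K).subgroupOf (gen F K) ⊔ (tri F K).subgroupOf (gen F K) = ⊤ := by
  rw [← Subgroup.subgroupOf_sup (show aff F K ≤ gen F K from le_sup_left)
    (show tri F K ≤ gen F K from le_sup_right)]
  exact Subgroup.subgroupOf_self _

theorem plane_acyl (N : ℕ) (hN : (Mu F).encard ≤ N) :
    ∀ u v, 7 ≤ (Pool.Agent.Helper705_SA.cosetGraph ((aff F K).subgroupOf (gen F K))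
      ((tri F K).subgroupOf (gen F K))).dist u v →
      {h : ↥(gen F K) | h • u = u ∧ h • v = v}.encard ≤ N := by
  refine encard_stab (isTree pingPong gen_sup) N ?_
  intro c₁ c₂ c₃ c₄ c₅ h1 h2 h3 h4 h5 h6 h7 h8 h9 h10
  exact stab5_le' N hN c₁ c₂ c₃ c₄ c₅ ⟨h1, h2, h3, h4, h5, h6, h7, h8, h9, h10⟩

end

end Pool.Agent.H40E9.TR
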