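import Pool.Agent.H40E9.TR.Mem

/-!
# The group of polynomial automorphisms of the plane: membership
-/

set_option autoImplicit false

namespace Pool.Agent.H40E9.TR

open Polynomial
open Pool.Agent.Y110.FJ
open Pool.Agent.Y462.SS (Closed)
open Pool.Agent.H40E9.LP (GLs C_end_free)

variable {C : ∀ (G : Type) [Group G], Prop}

section

variable {F K : Type} [Field F] [Field K] [Algebra F K]

variable (K) in
/-- the first coordinate and the powers of the second one -/
def Wd (d : ℕ) : Submodule K (K × K → K) :=
  Submodule.span K (insert (fun s => s.1) (Set.range fun i : Fin (d + 1) => fun s : K × K =>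
    s.2 ^ (i : ℕ)))

instance (d : ℕ) : FiniteDimensional K (Wd K d) :=
  FiniteDimensional.span_of_finite K ((Set.finite_range _).insert _)

theorem poly_mem (d : ℕ) (p : K[X]) (hp : p.natDegree ≤ d) :
    (fun s : K × K => p.eval s.2) ∈ Wd K d := by
  have h1 : (fun s : K × K => p.eval s.2) = ∑ i : Fin (d + 1), p.coeff i • fun s : K × K =>
      s.2 ^ (i : ℕ) := by
    funext s
    rw [Finset.sum_apply, eval_eq_sum_range' (Nat.lt_succ_of_le hp), Finset.sum_range]
    rfl
  rw [h1]
  exact Submodule.sum_mem _ fun i _ => Submodule.smul_mem _ _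
    (Submodule.subset_span (Set.mem_insert_of_mem _ ⟨i, rfl⟩))

theorem fst_mem (d : ℕ) : (fun s : K × K => s.1) ∈ Wd K d :=
  Submodule.subset_span (Set.mem_insert _ _)

theorem sep (d : ℕ) (hd : 1 ≤ d) (s t : K × K) (h : ∀ φ ∈ Wd K d, φ s = φ t) : s = t := by
  refine Prod.ext (h _ (fst_mem d)) ?_
  simpa using h _ (poly_mem d X (by simpa using hd))

theorem tri_stab (d : ℕ) (f : Equiv.Perm (K × K)) (a b c : K) (p : K[X]) (hp : p.natDegree ≤ d)
    (hf : IsT f a b c p) : f ∈ stabW K (Wd K d) := by
  intro φ hφ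
  have h1 : Wd K d ≤ (Wd K d).comap (pull K f) := by
    refine Submodule.span_le.mpr ?_
    rintro ψ (rfl | ⟨i, rfl⟩)
    · have h2 : pull K f (fun s => s.1) = a • (fun s : K × K => s.1) + fun s => p.eval s.2 := by
        funext s
        change (f (s.1, s.2)).1 = _
        rw [hf]; simp
      change pull K f (fun s => s.1) ∈ Wd K d
      rw [h2]
      exact Submodule.add_mem _ (Submodule.smul_mem _ _ (fst_mem d)) (poly_mem d p hp)
    · have h2 : pull K f (fun s => s.2 ^ (i : ℕ)) = fun s => ((Polynomial.C b * X +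
          Polynomial.C c) ^ (i : ℕ)).eval s.2 := by
        funext s
        change (f (s.1, s.2)).2 ^ (i : ℕ) = _
        rw [hf]; simp
      change pull K f (fun s => s.2 ^ (i : ℕ)) ∈ Wd K d
      rw [h2]
      refine poly_mem d _ ?_
      refine natDegree_pow_le.trans ?_
      calc (i : ℕ) * (Polynomial.C b * X + Polynomial.C c).natDegree ≤ i * 1 :=
            Nat.mul_le_mul_left _ natDegree_linear_le
        _ ≤ d := by have := i.2; omega
  exact h1 hφ

theorem C_tri (hC : Closed C) (hK : GLs C K) : C ↥(tri F K) := by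
  classical
  refine Q30.FJ.of_fg hC _ fun s => ?_
  -- a bound for the degrees
  have h1 : ∀ f : ↥(tri F K), ∃ d : ℕ, ∀ e ≥ d, (f : Equiv.Perm (K × K)) ∈ stabW K (Wd K e) := by
    rintro ⟨f, hf⟩
    obtain ⟨a, b, c, p, -, -, hT⟩ := mem_tri hf
    exact ⟨p.natDegree, fun e he => tri_stab e f a b c p he hT⟩
  choose d hd using h1
  let e := s.sup d + 1
  have h2 : Subgroup.closure (s : Set ↥(tri F K)) ≤
      (stabW K (Wd K e)).comap (Subgroup.subtype _) := by
    rw [Subgroup.closure_le]
    intro f hf
    exact hd f e ((Finset.le_sup hf).trans (Nat.le_succ _))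
  refine hC.of_injective _ _ (((tri F K).subtype.comp
    (Subgroup.closure (s : Set ↥(tri F K))).subtype).codRestrict (stabW K (Wd K e))
    (fun x => h2 x.2)) ?_ (stabW_mem hC hK (Wd K e) (sep e (by omega)))
  intro x y hxy
  have h3 := congrArg (fun z : ↥(stabW K (Wd K e)) => (z : Equiv.Perm (K × K))) hxy
  exact Subtype.ext (Subtype.ext h3)

theorem C_aff (hC : Closed C) (hK : GLs C K) : C ↥(aff F K) := by
  have h2 : aff F K ≤ stabW K (Wd K 1) := by
    intro f hf φ hφ
    obtain ⟨a, b, c, a', b', c', -, hA, -⟩ := mem_aff hf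
    have key : ∀ u v w : K, (fun s : K × K => u * s.1 + v * s.2 + w) ∈ Wd K 1 := by
      intro u v w
      have h3 : (fun s : K × K => u * s.1 + v * s.2 + w) = u • (fun s : K × K => s.1) +
          fun s => (Polynomial.C v * X + Polynomial.C w).eval s.2 := by
        funext s
        simp [add_assoc]
      rw [h3]
      exact Submodule.add_mem _ (Submodule.smul_mem _ _ (fst_mem 1))
        (poly_mem 1 _ natDegree_linear_le)
    have h1 : Wd K 1 ≤ (Wd K 1).comap (pull K f) := by
      refine Submodule.span_le.mpr ?_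
      rintro ψ (rfl | ⟨i, rfl⟩)
      · have h2 : pull K f (fun s => s.1) = fun s : K × K => a * s.1 + b * s.2 + c := by
          funext s
          change (f (s.1, s.2)).1 = _
          rw [hA]
        change pull K f (fun s => s.1) ∈ Wd K 1
        rw [h2]
        exact key a b c
      · change pull K f (fun s => s.2 ^ (i : ℕ)) ∈ Wd K 1
        have hi : (i : ℕ) = 0 ∨ (i : ℕ) = 1 := by have := i.2; omega
        rcases hi with hi | hi
        · have h2 : pull K f (fun s => s.2 ^ (i : ℕ)) = fun s : K × K =>
              (0 : K) * s.1 + 0 * s.2 + 1 := by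
            funext s
            change (f (s.1, s.2)).2 ^ (i : ℕ) = _
            rw [hi]; simp
          rw [h2]
          exact key 0 0 1
        · have h2 : pull K f (fun s => s.2 ^ (i : ℕ)) = fun s : K × K =>
              a' * s.1 + b' * s.2 + c' := by
            funext s
            change (f (s.1, s.2)).2 ^ (i : ℕ) = _
            rw [hi, hA, pow_one]
          rw [h2]
          exact key a' b' c'
    exact h1 hφ
  exact hC.of_injective _ _ (Subgroup.inclusion h2) (Subgroup.inclusion_injective h2)
    (stabW_mem hC hK (Wd K 1) (sep 1 le_rfl))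

/-- **the case of a field of coefficients with finitely many roots of unity** -/
theorem C_gen [CharZero K] (hC : ClosedT C) (hK : GLs C K) (N : ℕ) (hN : (Mu F).encard ≤ N) :
    C ↥(gen F K) := by
  have hA : C ↥((aff F K).subgroupOf (gen F K)) := by
    let e := Subgroup.subgroupOfEquivOfLe (show aff F K ≤ gen F K from le_sup_left)
    exact hC.base.base.of_injective _ _ e.toMonoidHom e.injective (C_aff hC.base.base hK)
  have hJ : C ↥((tri F K).subgroupOf (gen F K)) := by
    let e := Subgroup.subgroupOfEquivOfLe (show tri F K ≤ gen F K from le_sup_right)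
    exact hC.base.base.of_injective _ _ e.toMonoidHom e.injective (C_tri hC.base.base hK)
  exact tree_mem hC _ _ (isTree pingPong gen_sup) 7 N (plane_acyl N hN) hA hJ

end

/-! ### finitely many coefficients -/

section

variable {K : Type} [Field K]

theorem aff_mono {F₁ F₂ : Subfield K} (h : F₁ ≤ F₂) : aff F₁ K ≤ aff F₂ K := by
  rintro f ⟨a, b, c, a', b', c', hdet, hf⟩
  let i := Subfield.inclusion h
  refine ⟨i a, i b, i c, i a', i b', i c', ?_, ?_⟩
  · rw [← map_mul, ← map_mul, ← map_sub, Ne, map_eq_zero]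
    exact hdet
  · intro x y
    rw [hf]
    rfl

theorem tri_mono {F₁ F₂ : Subfield K} (h : F₁ ≤ F₂) : tri F₁ K ≤ tri F₂ K := by
  rintro f ⟨a, b, c, p, ha, hb, hf⟩
  let i := Subfield.inclusion h
  refine ⟨i a, i b, i c, p.map i, ?_, ?_, ?_⟩
  · rw [Ne, map_eq_zero]; exact ha
  · rw [Ne, map_eq_zero]; exact hb
  · intro x y
    rw [hf]
    have h1 : aeval y (p.map i) = aeval y p := by
      rw [aeval_def, aeval_def, eval₂_map]
      rfl
    rw [h1]
    rfl

theorem gen_mono {F₁ F₂ : Subfield K} (h : F₁ ≤ F₂) : gen F₁ K ≤ gen F₂ K :=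
  sup_le_sup (aff_mono h) (tri_mono h)

theorem exists_coeff (f : Equiv.Perm (K × K)) (hf : f ∈ gen K K) :
    ∃ S : Finset K, f ∈ gen (Subfield.closure (S : Set K)) K := by
  classical
  rw [gen, ← Subgroup.closure_eq (aff K K), ← Subgroup.closure_eq (tri K K),
    ← Subgroup.closure_union] at hf
  induction hf using Subgroup.closure_induction with
  | mem x hx =>
    rcases hx with ⟨a, b, c, a', b', c', hdet, hx⟩ | ⟨a, b, c, p, ha, hb, hx⟩
    · let S : Finset K := {a, b, c, a', b', c'}
      have hS : ∀ z ∈ S, z ∈ Subfield.closure (S : Set K) := fun z hz => Subfield.subset_closure hz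
      refine ⟨S, (le_sup_left : aff _ K ≤ gen _ K) ⟨⟨a, hS a (by simp [S])⟩, ⟨b, hS b (by simp [S])⟩,
        ⟨c, hS c (by simp [S])⟩, ⟨a', hS a' (by simp [S])⟩, ⟨b', hS b' (by simp [S])⟩,
        ⟨c', hS c' (by simp [S])⟩, ?_, ?_⟩⟩
      · intro h0
        exact hdet (congrArg Subtype.val h0)
      · intro u v
        exact hx u v
    · let S : Finset K := {a, b, c} ∪ p.support.image p.coeff
      have hS : ∀ z ∈ S, z ∈ Subfield.closure (S : Set K) := fun z hz => Subfield.subset_closure hz
      have hp : ∃ q : (↥(Subfield.closure (S : Set K)))[X],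
          q.map (algebraMap _ K) = p := by
        have h1 : p ∈ Polynomial.lifts (algebraMap ↥(Subfield.closure (S : Set K)) K) := by
          rw [Polynomial.lifts_iff_coeff_lifts]
          intro n
          by_cases hn : p.coeff n = 0
          · exact ⟨0, by rw [hn, map_zero]⟩
          · exact ⟨⟨p.coeff n, hS _ (Finset.mem_union_right _ (Finset.mem_image.mpr
              ⟨n, mem_support_iff.mpr hn, rfl⟩))⟩, rfl⟩
        obtain ⟨q, hq⟩ := h1
        exact ⟨q, hq⟩
      obtain ⟨q, hq⟩ := hp
      refine ⟨S, (le_sup_right : tri _ K ≤ gen _ K) ⟨⟨a, hS a (by simp [S])⟩, ⟨b, hS b (by simp [S])⟩,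
        ⟨c, hS c (by simp [S])⟩, q, ?_, ?_, ?_⟩⟩
      · intro h0
        exact ha (congrArg Subtype.val h0)
      · intro h0
        exact hb (congrArg Subtype.val h0)
      · intro u v
        rw [hx u v]
        have h1 : aeval v q = aeval v p := by
          rw [← hq, aeval_map_algebraMap]
        rw [h1]
        rfl
  | one => exact ⟨∅, Subgroup.one_mem _⟩
  | mul x y _ _ hx hy =>
    obtain ⟨S, hS⟩ := hx
    obtain ⟨T, hT⟩ := hy
    refine ⟨S ∪ T, Subgroup.mul_mem _ (gen_mono (Subfield.closure_mono ?_) hS)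
      (gen_mono (Subfield.closure_mono ?_) hT)⟩
    · exact_mod_cast Finset.subset_union_left
    · exact_mod_cast Finset.subset_union_right
  | inv x _ hx =>
    obtain ⟨S, hS⟩ := hx
    exact ⟨S, Subgroup.inv_mem _ hS⟩

/-- **all fields of characteristic zero such that finitely generated subfields have finitely many
roots of unity** -/
theorem C_plane [CharZero K] (hC : ClosedT C) (hK : GLs C K)
    (hmu : ∀ S : Finset K, (Mu ↥(Subfield.closure (S : Set K))).Finite) : C ↥(gen K K) := by
  classical
  refine Q30.FJ.of_fg hC.base.base _ fun s => ?_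
  have h1 : ∀ f : ↥(gen K K), ∃ S : Finset K, (f : Equiv.Perm (K × K)) ∈
      gen (Subfield.closure (S : Set K)) K := by
    rintro ⟨f, hf⟩
    exact exists_coeff f hf
  choose S hS using h1
  let T : Finset K := s.biUnion S
  have h2 : Subgroup.closure (s : Set ↥(gen K K)) ≤
      (gen (Subfield.closure (T : Set K)) K).comap (Subgroup.subtype _) := by
    rw [Subgroup.closure_le]
    intro f hf
    refine gen_mono (Subfield.closure_mono ?_) (hS f)
    exact_mod_cast Finset.subset_biUnion_of_mem S hf
  obtain ⟨N, hN⟩ : ∃ N : ℕ, (Mu ↥(Subfield.closure (T : Set K))).encard ≤ N :=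
    ⟨_, (hmu T).encard_eq_coe_toFinset_card.le⟩
  refine hC.base.base.of_injective _ _ (((gen K K).subtype.comp
    (Subgroup.closure (s : Set ↥(gen K K))).subtype).codRestrict
    (gen (Subfield.closure (T : Set K)) K) (fun x => h2 x.2)) ?_ (C_gen hC hK N hN)
  intro x y hxy
  have h3 := congrArg (fun z : ↥(gen (Subfield.closure (T : Set K)) K) =>
    (z : Equiv.Perm (K × K))) hxy
  exact Subtype.ext (Subtype.ext h3)

end

end Pool.Agent.H40E9.TR
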