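import Pool.Agent.H40E9.TR.Acyl

/-!
# Membership in the class
-/

set_option autoImplicit false

namespace Pool.Agent.H40E9.TR

open Pool.Agent.Y110.FJ
open Pool.Agent.Y462.SS (Closed)
open Pool.Agent.H40E9.LP (GLs C_end_free)
open Pool.Agent.Helper270.Tree (TreeAct)
open Pool.Agent.Helper705_SA (cosetGraph)

/-- An acylindrical action of `G` on the tree `T`: there are no inversions, and there are `k` and
`N` such that at most `N` elements of `G` fix two given vertices of distance at least `k`. -/
structure Acylindrical (G : Type) {V : Type} [Group G] [MulAction G V] (T : SimpleGraph V) :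
    Prop where
  isTree : T.IsTree
  adj : ∀ (g : G) (v w : V), T.Adj v w → T.Adj (g • v) (g • w)
  noInv : ∀ (g : G) (v w : V), T.Adj v w → ¬ (g • v = w ∧ g • w = v)
  acyl : ∃ k N : ℕ, ∀ u v : V, k ≤ T.dist u v → {g : G | g • u = u ∧ g • v = v}.encard ≤ N

/-- A class of groups with the closure properties `ClosedE` which contains every finitely generated
group with an acylindrical action on a tree such that the stabilizers of the vertices are in the
class. -/
structure ClosedT (C : ∀ (G : Type) [Group G], Prop) : Prop where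
  base : ClosedE C
  tree : ∀ (G V : Type) [Group G] [MulAction G V] (T : SimpleGraph V), Group.FG G →
    Acylindrical G T → (∀ v : V, C ↥(MulAction.stabilizer G v)) → C G

variable {C : ∀ (G : Type) [Group G], Prop}

theorem tree_mem (hC : ClosedT C) {G : Type} [Group G] (A J : Subgroup G)
    (hT : (cosetGraph A J).IsTree) (k N : ℕ)
    (hN : ∀ u v, k ≤ (cosetGraph A J).dist u v → {g : G | g • u = u ∧ g • v = v}.encard ≤ N)
    (hA : C ↥A) (hJ : C ↥J) : C G := by
  refine Q30.FJ.of_fg hC.base.base G fun s => ?_
  refine hC.tree ↥(Subgroup.closure (s : Set G)) _ (cosetGraph A J)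
    ((Group.fg_iff_subgroup_fg _).mpr ⟨s, rfl⟩)
    ⟨hT, fun g v w h => (treeAct hT).adj (g : G) v w h,
      fun g v w h => (treeAct hT).noInv (g : G) v w h, k, N, ?_⟩ ?_
  · intro u v huv
    refine le_trans (Set.encard_le_encard_of_injOn (f := fun h => (h : G)) ?_ ?_) (hN u v huv)
    · rintro h ⟨h1, h2⟩
      exact ⟨h1, h2⟩
    · intro x _ y _ hxy
      exact Subtype.ext hxy
  · rintro (v | v)
    · obtain ⟨g, rfl⟩ := QuotientGroup.mk_surjective v
      let f : ↥(MulAction.stabilizer ↥(Subgroup.closure (s : Set G))
          (Sum.inl (QuotientGroup.mk g) : (G ⧸ A) ⊕ (G ⧸ J))) →* G :=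
        (MulAut.conj g⁻¹).toMonoidHom.comp ((Subgroup.subtype _).comp (Subgroup.subtype _))
      have hf : ∀ x, f x = g⁻¹ * ((x : ↥(Subgroup.closure (s : Set G))) : G) * g := by
        intro x
        change g⁻¹ * _ * g⁻¹⁻¹ = _
        rw [inv_inv]
        rfl
      have hfA : ∀ x, f x ∈ A := by
        intro x
        have h1 : (x : ↥(Subgroup.closure (s : Set G))) •
          (Sum.inl (QuotientGroup.mk g) : (G ⧸ A) ⊕ (G ⧸ J)) = Sum.inl (QuotientGroup.mk g) := x.2
        have h2 : (QuotientGroup.mk (((x : ↥(Subgroup.closure (s : Set G))) : G) * g) : G ⧸ A) =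
          QuotientGroup.mk g := Sum.inl_injective h1
        rw [hf, mul_assoc]
        exact QuotientGroup.eq.mp h2.symm
      refine hC.base.base.of_injective _ _ (f.codRestrict A hfA) ?_ hA
      intro x y hxy
      have h1 : f x = f y := congrArg Subtype.val hxy
      rw [hf, hf] at h1
      exact Subtype.ext (Subtype.ext (mul_left_cancel (mul_right_cancel h1)))
    · obtain ⟨g, rfl⟩ := QuotientGroup.mk_surjective v
      let f : ↥(MulAction.stabilizer ↥(Subgroup.closure (s : Set G))
          (Sum.inr (QuotientGroup.mk g) : (G ⧸ A) ⊕ (G ⧸ J))) →* G :=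
        (MulAut.conj g⁻¹).toMonoidHom.comp ((Subgroup.subtype _).comp (Subgroup.subtype _))
      have hf : ∀ x, f x = g⁻¹ * ((x : ↥(Subgroup.closure (s : Set G))) : G) * g := by
        intro x
        change g⁻¹ * _ * g⁻¹⁻¹ = _
        rw [inv_inv]
        rfl
      have hfA : ∀ x, f x ∈ J := by
        intro x
        have h1 : (x : ↥(Subgroup.closure (s : Set G))) •
          (Sum.inr (QuotientGroup.mk g) : (G ⧸ A) ⊕ (G ⧸ J)) = Sum.inr (QuotientGroup.mk g) := x.2
        have h2 : (QuotientGroup.mk (((x : ↥(Subgroup.closure (s : Set G))) : G) * g) : G ⧸ J) =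
          QuotientGroup.mk g := Sum.inr_injective h1
        rw [hf, mul_assoc]
        exact QuotientGroup.eq.mp h2.symm
      refine hC.base.base.of_injective _ _ (f.codRestrict J hfA) ?_ hJ
      intro x y hxy
      have h1 : f x = f y := congrArg Subtype.val hxy
      rw [hf, hf] at h1
      exact Subtype.ext (Subtype.ext (mul_left_cancel (mul_right_cancel h1)))

/-! ### groups with an invariant finite-dimensional space of functions -/

/-- composition with a permutation -/
def pull (K : Type) [Field K] {S : Type} (f : Equiv.Perm S) : (S → K) →ₗ[K] (S → K) where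
  toFun φ := fun s => φ (f s)
  map_add' _ _ := rfl
  map_smul' _ _ := rfl

/-- the permutations which preserve a finite-dimensional space of functions -/
def stabW (K : Type) [Field K] {S : Type} (W : Submodule K (S → K)) [FiniteDimensional K W] :
    Subgroup (Equiv.Perm S) where
  carrier := {f | ∀ φ ∈ W, pull K f φ ∈ W}
  one_mem' := fun φ hφ => hφ
  mul_mem' := by
    intro f g hf hg φ hφ
    exact hg _ (hf _ hφ)
  inv_mem' := by
    intro f hf φ hφ
    let L : W →ₗ[K] W := (pull K f).restrict hf
    have hL : Function.Injective L := by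
      intro a b hab
      apply Subtype.ext
      funext s
      have h1 : pull K f (a : S → K) = pull K f (b : S → K) := congrArg Subtype.val hab
      have := congrFun h1 (f⁻¹ s)
      simpa [pull] using this
    obtain ⟨⟨ψ, hψ⟩, hψ'⟩ := LinearMap.injective_iff_surjective.mp hL ⟨φ, hφ⟩
    have h1 : pull K f ψ = φ := congrArg Subtype.val hψ'
    have h2 : pull K f⁻¹ φ = ψ := by
      rw [← h1]
      funext s
      simp [pull]
    rw [h2]
    exact hψ

theorem stabW_mem (hC : Closed C) {K : Type} [Field K] (hK : GLs C K) {S : Type}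
    (W : Submodule K (S → K)) [FiniteDimensional K W]
    (hsep : ∀ s t : S, (∀ φ ∈ W, φ s = φ t) → s = t) : C ↥(stabW K W) := by
  let ρ : ↥(stabW K W) →* Module.End K W :=
    { toFun := fun f => (pull K (f : Equiv.Perm S)⁻¹).restrict ((stabW K W).inv_mem f.2)
      map_one' := by
        ext φ s
        rfl
      map_mul' := by
        intro f g
        ext φ s
        simp [pull] }
  refine hC.of_injective _ _ ρ.toHomUnits ?_ (C_end_free hC hK)
  intro f g hfg
  have h1 : ρ f = ρ g := congrArg Units.val hfg
  have h2 : ((f : Equiv.Perm S)⁻¹) = (g : Equiv.Perm S)⁻¹ := by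
    ext s
    apply hsep
    intro φ hφ
    have := congrArg (fun L : Module.End K W => ((L ⟨φ, hφ⟩ : W) : S → K) s) h1
    exact this
  exact Subtype.ext (inv_injective h2)

end Pool.Agent.H40E9.TR
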