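import Mathlib
import Pool.Agent.H385R2.Char
import Pool.Agent.H40E9.TR.Acyl

/-!
# Finitely generated fields of characteristic zero have finitely many roots of unity
-/

set_option autoImplicit false

namespace Pool.Agent.H40E9.TR

open Polynomial

/-- an integrally closed domain with a homomorphism to `ℤ`: the order of a root of unity in a finite
extension of the field of fractions is bounded -/
theorem totient_le {R L F : Type} [CommRing R] [IsDomain R] [IsIntegrallyClosed R] [Field L]
    [Field F] [CharZero F] [Algebra R L] [IsFractionRing R L] [Algebra R F] [Algebra L F]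
    [IsScalarTower R L F] [FiniteDimensional L F] (φ : R →+* ℤ) {z : F} {m : ℕ} (hm : 0 < m)
    (hz : IsPrimitiveRoot z m) : Nat.totient m ≤ Module.finrank L F := by
  have hint : IsIntegral R z := by
    refine ⟨X ^ m - 1, monic_X_pow_sub_C 1 hm.ne', ?_⟩
    simp [hz.pow_eq_one]
  have : FaithfulSMul R L := (faithfulSMul_iff_algebraMap_injective R L).mpr
    (IsFractionRing.injective R L)
  have hinj : Function.Injective (algebraMap R F) := by
    rw [IsScalarTower.algebraMap_eq R L F]
    exact (algebraMap L F).injective.comp (IsFractionRing.injective R L)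
  have : FaithfulSMul R F := (faithfulSMul_iff_algebraMap_injective R F).mpr hinj
  have : Module.IsTorsionFree R F := inferInstance
  have h1 : minpoly L z = (minpoly R z).map (algebraMap R L) :=
    minpoly.isIntegrallyClosed_eq_field_fractions' L hint
  have h2 : (minpoly R z).natDegree ≤ Module.finrank L F := by
    have h3 : (minpoly L z).natDegree = (minpoly R z).natDegree := by
      rw [h1, natDegree_map_eq_of_injective (IsFractionRing.injective R L)]
    rw [← h3]
    exact minpoly.natDegree_le z
  have h3 : minpoly R z ∣ cyclotomic m R := by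
    apply minpoly.isIntegrallyClosed_dvd hint
    have h4 := hz.isRoot_cyclotomic hm
    rw [← map_cyclotomic m (algebraMap R F)] at h4
    rwa [IsRoot.def, eval_map_algebraMap] at h4
  have h4 : (minpoly R z).map φ ∣ cyclotomic m ℤ := by
    have := Polynomial.map_dvd φ h3
    rwa [map_cyclotomic] at this
  have hmon : (minpoly R z).Monic := minpoly.monic hint
  have h5 : ((minpoly R z).map φ).natDegree = (minpoly R z).natDegree := hmon.natDegree_map φ
  have h6 : ¬ IsUnit ((minpoly R z).map φ) := by
    intro hu
    have h7 := (hmon.map φ).isUnit_iff.mp hu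
    have h8 : (minpoly R z).natDegree = 0 := by rw [← h5, h7, natDegree_one]
    exact (minpoly.natDegree_pos hint).ne' h8
  have h7 : Associated ((minpoly R z).map φ) (cyclotomic m ℤ) := by
    obtain ⟨r, hr⟩ := h4
    have hirr := cyclotomic.irreducible hm
    have hu : IsUnit r := (hirr.isUnit_or_isUnit hr).resolve_left h6
    obtain ⟨u, rfl⟩ := hu
    exact ⟨u, hr.symm⟩
  have h8 : ((minpoly R z).map φ).natDegree = m.totient := by
    rw [natDegree_eq_of_degree_eq (degree_eq_degree_of_associated h7), natDegree_cyclotomic]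
  rw [← h8, h5]
  exact h2

theorem mu_finite_of_bound {F : Type} [Field F] (D : ℕ)
    (h : ∀ (z : F) (m : ℕ), 0 < m → IsPrimitiveRoot z m → Nat.totient m ≤ D) : (Mu F).Finite := by
  classical
  have hsub : Mu F ⊆ ⋃ m ∈ Finset.Icc 1 (4 * D ^ 2), {z : F | z ^ m = 1} := by
    rintro z ⟨n, hn, hz⟩
    have h1 : 0 < orderOf z := orderOf_pos_iff.mpr (isOfFinOrder_iff_pow_eq_one.mpr ⟨n, hn, hz⟩)
    have h2 := h z (orderOf z) h1 (IsPrimitiveRoot.orderOf z)
    have h3 := H385.sqrt_le_totient (orderOf z) h1
    have h4 : (orderOf z : ℝ) ≤ 4 * D ^ 2 := by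
      have h5 : (Nat.totient (orderOf z) : ℝ) ≤ D := by exact_mod_cast h2
      have h6 : Real.sqrt (orderOf z) ≤ 2 * D := h3.trans (by linarith)
      calc (orderOf z : ℝ) = Real.sqrt (orderOf z) ^ 2 := (Real.sq_sqrt (by positivity)).symm
        _ ≤ (2 * D) ^ 2 := pow_le_pow_left₀ (Real.sqrt_nonneg _) h6 2
        _ = 4 * D ^ 2 := by ring
    simp only [Set.mem_iUnion]
    exact ⟨orderOf z, Finset.mem_Icc.mpr ⟨h1, by exact_mod_cast h4⟩, pow_orderOf_eq_one z⟩
  refine Set.Finite.subset ?_ hsub
  refine Set.Finite.biUnion (Finset.finite_toSet _) fun m hm => ?_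
  have hm1 : 1 ≤ m := (Finset.mem_Icc.mp hm).1
  refine ((X ^ m - 1 : F[X]).roots.toFinset.finite_toSet).subset ?_
  intro z hz
  have h0 : (X ^ m - 1 : F[X]) ≠ 0 := X_pow_sub_C_ne_zero hm1 1
  simp only [Finset.mem_coe, Multiset.mem_toFinset, mem_roots h0, IsRoot.def, eval_sub, eval_pow,
    eval_X, eval_one]
  rw [show z ^ m = 1 from hz, sub_self]

theorem fin_of_adjoin {L F : Type} [Field L] [Field F] [Algebra L F] [Algebra.IsAlgebraic L F]
    (S : Finset F) (hS : Subfield.closure (S : Set F) = ⊤) : FiniteDimensional L F := by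
  have h1 : FiniteDimensional L (IntermediateField.adjoin L (S : Set F)) :=
    IntermediateField.finiteDimensional_adjoin fun x _ =>
      (Algebra.IsAlgebraic.isAlgebraic (R := L) x).isIntegral
  have h2 : ∀ x : F, x ∈ IntermediateField.adjoin L (S : Set F) := by
    intro x
    have h3 : Subfield.closure (S : Set F) ≤ (IntermediateField.adjoin L (S : Set F)).toSubfield := by
      rw [Subfield.closure_le]
      exact IntermediateField.subset_adjoin L (S : Set F)
    exact h3 (by rw [hS]; trivial)
  exact Module.Finite.of_surjective (IntermediateField.adjoin L (S : Set F)).val.toLinearMap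
    fun x => ⟨⟨x, h2 x⟩, rfl⟩

attribute [local instance] FractionRing.liftAlgebra

theorem mu_finite_of_top {F : Type} [Field F] [CharZero F] (S : Finset F)
    (hS : Subfield.closure (S : Set F) = ⊤) : (Mu F).Finite := by
  classical
  -- everything is algebraic over the ring generated by `S`
  have halg : Algebra.IsAlgebraic (Algebra.adjoin ℤ (S : Set F)) F := by
    refine ⟨fun x => ?_⟩
    have hx : x ∈ Subfield.closure (S : Set F) := by rw [hS]; trivial
    obtain ⟨y, hy, w, hw, rfl⟩ := Subfield.mem_closure_iff.mp hx
    have hsub : ∀ y ∈ Subring.closure (S : Set F), y ∈ Algebra.adjoin ℤ (S : Set F) := by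
      intro y hy
      have h1 : Subring.closure (S : Set F) ≤ (Algebra.adjoin ℤ (S : Set F)).toSubring := by
        rw [Subring.closure_le]
        exact Algebra.subset_adjoin
      exact h1 hy
    by_cases hw0 : w = 0
    · subst hw0
      rw [div_zero]
      exact isAlgebraic_zero
    · refine ⟨Polynomial.C ⟨w, hsub w hw⟩ * X - Polynomial.C ⟨y, hsub y hy⟩, ?_, ?_⟩
      · intro h0
        have := congrArg (fun p => p.coeff 1) h0
        simp at this
        exact hw0 (congrArg Subtype.val this)
      · have e1 : ∀ u : Algebra.adjoin ℤ (S : Set F),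
          algebraMap (Algebra.adjoin ℤ (S : Set F)) F u = u := fun u => rfl
        simp only [map_sub, map_mul, aeval_C, aeval_X, e1]
        rw [mul_div_cancel₀ _ hw0, sub_self]
  obtain ⟨t, htS, ht⟩ := exists_isTranscendenceBasis_subset (R := ℤ) (S : Set F)
  let R := Algebra.adjoin ℤ (Set.range ((↑) : t → F))
  let e : MvPolynomial t ℤ ≃ₐ[ℤ] R := ht.1.aevalEquiv
  have : UniqueFactorizationMonoid R := e.toMulEquiv.uniqueFactorizationMonoid inferInstance
  have hRF : Function.Injective (algebraMap R F) := Subtype.val_injective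
  have : FaithfulSMul R F := (faithfulSMul_iff_algebraMap_injective R F).mpr hRF
  have halg' : Algebra.IsAlgebraic R F := ht.isAlgebraic
  let L := FractionRing R
  have halgL : Algebra.IsAlgebraic L F := by
    refine ⟨fun x => ?_⟩
    exact (halg'.isAlgebraic x).extendScalars (IsFractionRing.injective R L)
  have hfin : FiniteDimensional L F := fin_of_adjoin S hS
  refine mu_finite_of_bound (Module.finrank L F) fun z m hm hz => ?_
  exact totient_le (R := R) (L := L) ((MvPolynomial.constantCoeff (R := ℤ) (σ := t)).comp
    (e.symm : R →+* MvPolynomial t ℤ)) hm hz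

theorem mu_finite {K : Type} [Field K] [CharZero K] (S : Finset K) :
    (Mu ↥(Subfield.closure (S : Set K))).Finite := by
  classical
  let i : {x // x ∈ S} → ↥(Subfield.closure (S : Set K)) := fun x =>
    ⟨x.1, Subfield.subset_closure (Finset.mem_coe.mpr x.2)⟩
  let T : Finset ↥(Subfield.closure (S : Set K)) := S.attach.image i
  refine mu_finite_of_top T ?_
  rw [eq_top_iff]
  rintro ⟨x, hx⟩ -
  induction hx using Subfield.closure_induction with
  | mem x hx =>
    refine Subfield.subset_closure ?_
    rw [Finset.mem_coe, Finset.mem_image]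
    exact ⟨⟨x, Finset.mem_coe.mp hx⟩, Finset.mem_attach _ _, rfl⟩
  | one => exact Subfield.one_mem _
  | add x y hx hy h1 h2 => exact Subfield.add_mem _ h1 h2
  | neg x hx h => exact Subfield.neg_mem _ h
  | inv x hx h => exact Subfield.inv_mem _ h
  | mul x y hx hy h1 h2 => exact Subfield.mul_mem _ h1 h2

end Pool.Agent.H40E9.TR
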