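import Pool.Agent.Helper270.Tree
import Pool.Agent.Helper705_SA.Amalg
import Pool.Agent.H40E9.LP.Pid

/-!
# Two subgroups in ping-pong: the coset graph is a tree; acylindricity
-/

set_option autoImplicit false

namespace Pool.Agent.H40E9.TR

open SimpleGraph
open Pool.Agent.Helper270.Tree
open Pool.Agent.Helper705_SA

/-- `g` is an edge between `x` and `y` -/
def E {G : Type} [Group G] (A J : Subgroup G) (g : G) (x y : (G ⧸ A) ⊕ (G ⧸ J)) : Prop :=
  (x = Sum.inl (QuotientGroup.mk g) ∧ y = Sum.inr (QuotientGroup.mk g)) ∨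
    (y = Sum.inl (QuotientGroup.mk g) ∧ x = Sum.inr (QuotientGroup.mk g))

/-- ping-pong data for two subgroups -/
structure PingPong {G : Type} [Group G] (A J : Subgroup G) {Ω : Type} [MulAction G Ω]
    (X Y : Set Ω) (p q : Ω) : Prop where
  hp : p ∈ X
  hq : q ∈ Y
  jx : ∀ j ∈ J, j ∉ A → ∀ φ ∈ X, j • φ ∈ Y
  ay : ∀ a ∈ A, a ∉ J → ∀ φ ∈ Y, a • φ ∈ X
  ap : ∀ a ∈ A, a • p ∉ Y
  jq : ∀ j ∈ J, j • q ∉ X

section

variable {G : Type} [Group G] {A J : Subgroup G}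

theorem adj_iff {x y : (G ⧸ A) ⊕ (G ⧸ J)} : (cosetGraph A J).Adj x y ↔ ∃ g, E A J g x y := Iff.rfl

theorem E.flip {g : G} {x y : (G ⧸ A) ⊕ (G ⧸ J)} (h : E A J g x y) : y.isRight = !x.isRight := by
  rcases h with ⟨rfl, rfl⟩ | ⟨rfl, rfl⟩ <;> rfl

/-- a transition at a vertex of the first type -/
theorem transA {g g' : G} {x y z : (G ⧸ A) ⊕ (G ⧸ J)} (h : E A J g x y) (h' : E A J g' y z)
    (hne : x ≠ z) (hy : y.isRight = false) : g⁻¹ * g' ∈ A ∧ g⁻¹ * g' ∉ J := by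
  rcases h with ⟨rfl, rfl⟩ | ⟨rfl, rfl⟩
  · simp at hy
  rcases h' with ⟨h1, rfl⟩ | ⟨h1, h2⟩
  · refine ⟨QuotientGroup.eq.mp (Sum.inl_injective h1), fun hc => hne ?_⟩
    rw [QuotientGroup.eq.mpr hc]
  · exact absurd h2 (by simp)

theorem transJ {g g' : G} {x y z : (G ⧸ A) ⊕ (G ⧸ J)} (h : E A J g x y) (h' : E A J g' y z)
    (hne : x ≠ z) (hy : y.isRight = true) : g⁻¹ * g' ∈ J ∧ g⁻¹ * g' ∉ A := by
  rcases h with ⟨rfl, rfl⟩ | ⟨rfl, rfl⟩
  swap
  · simp at hy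
  rcases h' with ⟨h1, rfl⟩ | ⟨rfl, h2⟩
  · exact absurd h1 (by simp)
  · refine ⟨QuotientGroup.eq.mp (Sum.inr_injective h2), fun hc => hne ?_⟩
    rw [QuotientGroup.eq.mpr hc]

variable {Ω : Type} [MulAction G Ω] {X Y : Set Ω} {p q : Ω}

open Classical in
theorem word (hP : PingPong A J X Y p q) : ∀ (m : ℕ) (w : ℕ → (G ⧸ A) ⊕ (G ⧸ J)),
    (∀ i < m + 2, (cosetGraph A J).Adj (w i) (w (i + 1))) → (∀ i < m + 1, w i ≠ w (i + 2)) →
    ∀ g g' : G, E A J g (w 0) (w 1) → E A J g' (w (m + 1)) (w (m + 2)) →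
      (g⁻¹ * g') • (if (w (m + 1)).isRight then p else q) ∈ (if (w 1).isRight then Y else X) := by
  intro m
  induction m with
  | zero =>
    intro w _ hnb g g' hg hg'
    by_cases h : (w 1).isRight
    · obtain ⟨h1, h2⟩ := transJ hg hg' (hnb 0 (by omega)) h
      simp only [h, zero_add, if_true]
      exact hP.jx _ h1 h2 _ hP.hp
    · obtain ⟨h1, h2⟩ := transA hg hg' (hnb 0 (by omega)) (by simpa using h)
      simp only [h, zero_add]
      exact hP.ay _ h1 h2 _ hP.hq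
  | succ m ih =>
    intro w hadj hnb g g' hg hg'
    obtain ⟨g1, hg1⟩ := adj_iff.mp (hadj 1 (by omega))
    have h3 := ih (fun i => w (i + 1)) (fun i hi => hadj (i + 1) (by omega))
      (fun i hi => hnb (i + 1) (by omega)) g1 g' hg1 hg'
    have h4 : g⁻¹ * g' = (g⁻¹ * g1) * (g1⁻¹ * g') := by group
    have h5 := hg1.flip
    rw [h4, mul_smul]
    by_cases h : (w 1).isRight
    · obtain ⟨h1, h2⟩ := transJ hg hg1 (hnb 0 (by omega)) h
      have h6 : (w (1 + 1)).isRight = false := by rw [h5, h]; rfl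
      have h7 : (if (w (1 + 1)).isRight then Y else X) = X := by rw [h6]; simp
      rw [if_pos h]
      exact hP.jx _ h1 h2 _ (h7 ▸ h3)
    · obtain ⟨h1, h2⟩ := transA hg hg1 (hnb 0 (by omega)) (by simpa using h)
      have h6 : (w (1 + 1)).isRight = true := by rw [h5]; simpa using h
      have h7 : (if (w (1 + 1)).isRight then Y else X) = Y := by rw [h6]; simp
      rw [if_neg h]
      exact hP.ay _ h1 h2 _ (h7 ▸ h3)

theorem acyclic (hP : PingPong A J X Y p q) : (cosetGraph A J).IsAcyclic := by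
  intro v c hc
  have h3 := hc.three_le_length
  obtain ⟨m, hm⟩ : ∃ m, c.length = m + 2 := ⟨c.length - 2, by omega⟩
  have hadj : ∀ i < m + 2, (cosetGraph A J).Adj (c.getVert i) (c.getVert (i + 1)) := fun i hi =>
    c.adj_getVert_succ (by omega)
  have hnb : ∀ i < m + 1, c.getVert i ≠ c.getVert (i + 2) := by
    intro i hi h
    rcases Nat.eq_zero_or_pos i with h0 | h0
    · subst h0
      have := hc.getVert_injOn' (x₁ := 0) (x₂ := 2) (by simp) (by simp; omega) h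
      omega
    · have := hc.getVert_injOn (x₁ := i) (x₂ := i + 2) ⟨h0, by omega⟩ ⟨by omega, by omega⟩ h
      omega
  obtain ⟨g, hg⟩ := adj_iff.mp (hadj 0 (by omega))
  obtain ⟨g', hg'⟩ := adj_iff.mp (hadj (m + 1) (by omega))
  have hw := word hP m c.getVert hadj hnb g g' hg hg'
  have h0 : c.getVert 0 = v := c.getVert_zero
  have h1 : c.getVert (m + 2) = v := by rw [← hm]; exact c.getVert_length
  have hfl := hg.flip
  have hfl' := hg'.flip
  rw [h0] at hg hfl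
  rw [show m + 1 + 1 = m + 2 from rfl, h1] at hg' hfl'
  rcases hv : v.isRight with _ | _
  · -- `v` is of the first type
    have h5 : (c.getVert (0 + 1)).isRight = true := by rw [hfl, hv]; rfl
    have h6 : (c.getVert (m + 1)).isRight = true := by
      rw [hv] at hfl'; simpa using hfl'.symm
    rw [h6, h5] at hw
    simp only [if_true] at hw
    refine hP.ap _ ?_ hw
    rcases hg with ⟨h7, -⟩ | ⟨-, h7⟩
    · rcases hg' with ⟨-, h8⟩ | ⟨h8, -⟩
      · rw [h7] at h8; simp at h8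
      · exact QuotientGroup.eq.mp (Sum.inl_injective (h7.symm.trans h8))
    · rw [h7] at hv; simp at hv
  · have h5 : (c.getVert (0 + 1)).isRight = false := by rw [hfl, hv]; rfl
    have h6 : (c.getVert (m + 1)).isRight = false := by
      rw [hv] at hfl'; simpa using hfl'.symm
    rw [h6, h5] at hw
    simp only [Bool.false_eq_true, if_false] at hw
    refine hP.jq _ ?_ hw
    rcases hg with ⟨h7, -⟩ | ⟨-, h7⟩
    · rw [h7] at hv; simp at hv
    · rcases hg' with ⟨-, h8⟩ | ⟨h8, -⟩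
      · exact QuotientGroup.eq.mp (Sum.inr_injective (h7.symm.trans h8))
      · rw [h7] at h8; simp at h8

theorem isTree (hP : PingPong A J X Y p q) (hgen : A ⊔ J = ⊤) : (cosetGraph A J).IsTree :=
  ⟨cosetGraph_connected A J hgen, acyclic hP⟩

theorem treeAct (hT : (cosetGraph A J).IsTree) : TreeAct G (cosetGraph A J) where
  isTree := hT
  adj := by
    rintro g v w ⟨k, ⟨rfl, rfl⟩ | ⟨rfl, rfl⟩⟩
    · exact ⟨g * k, Or.inl ⟨rfl, rfl⟩⟩
    · exact ⟨g * k, Or.inr ⟨rfl, rfl⟩⟩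
  noInv := by
    rintro g v w ⟨k, ⟨rfl, rfl⟩ | ⟨rfl, rfl⟩⟩ ⟨h1, h2⟩
    · exact absurd h1 (by simp [Sum.smul_inl])
    · exact absurd h1 (by simp [Sum.smul_inr])

/-- the elements of `B = A ∩ J` which stay in `B` under five conjugations -/
def Stab5 (B : Subgroup G) (c₁ c₂ c₃ c₄ c₅ : G) : Set G :=
  {h | h ∈ B ∧ c₁⁻¹ * h * c₁ ∈ B ∧ (c₁ * c₂)⁻¹ * h * (c₁ * c₂) ∈ B ∧
    (c₁ * c₂ * c₃)⁻¹ * h * (c₁ * c₂ * c₃) ∈ B ∧
    (c₁ * c₂ * c₃ * c₄)⁻¹ * h * (c₁ * c₂ * c₃ * c₄) ∈ B ∧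
    (c₁ * c₂ * c₃ * c₄ * c₅)⁻¹ * h * (c₁ * c₂ * c₃ * c₄ * c₅) ∈ B}

theorem edge_fix {g h : G} {x y : (G ⧸ A) ⊕ (G ⧸ J)} (hE : E A J g x y) (hx : h • x = x)
    (hy : h • y = y) : g⁻¹ * h * g ∈ A ⊓ J := by
  have key : ∀ (x y : (G ⧸ A) ⊕ (G ⧸ J)), x = Sum.inl (QuotientGroup.mk g) →
      y = Sum.inr (QuotientGroup.mk g) → h • x = x → h • y = y → g⁻¹ * h * g ∈ A ⊓ J := by
    rintro x y rfl rfl hx hy
    have h1 : (QuotientGroup.mk (h * g) : G ⧸ A) = QuotientGroup.mk g := Sum.inl_injective hx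
    have h2 : (QuotientGroup.mk (h * g) : G ⧸ J) = QuotientGroup.mk g := Sum.inr_injective hy
    refine ⟨?_, ?_⟩
    · have := QuotientGroup.eq.mp h1.symm
      rwa [← mul_assoc] at this
    · have := QuotientGroup.eq.mp h2.symm
      rwa [← mul_assoc] at this
  rcases hE with ⟨h1, h2⟩ | ⟨h1, h2⟩
  · exact key x y h1 h2 hx hy
  · exact key y x h1 h2 hy hx

theorem encard_stab (hT : (cosetGraph A J).IsTree) (N : ℕ)
    (hN : ∀ c₁ c₂ c₃ c₄ c₅ : G, c₁ ∈ A → c₁ ∉ J → c₂ ∈ J → c₂ ∉ A → c₃ ∈ A → c₃ ∉ J →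
      c₄ ∈ J → c₄ ∉ A → c₅ ∈ A → c₅ ∉ J → (Stab5 (A ⊓ J) c₁ c₂ c₃ c₄ c₅).encard ≤ N)
    (u v : (G ⧸ A) ⊕ (G ⧸ J)) (huv : 7 ≤ (cosetGraph A J).dist u v) :
    {h : G | h • u = u ∧ h • v = v}.encard ≤ N := by
  obtain ⟨w, hw0, hwn, hadj, hd, hnb⟩ := exists_geod hT u v
  have hfix : ∀ h : G, h • u = u → h • v = v → ∀ i ≤ 7, h • w i = w i := by
    intro h h1 h2 i hi
    refine (treeAct hT).convex h1 h2 ?_
    obtain ⟨h3, h4⟩ := hd i (by omega)
    rw [h3, h4]; omega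
  -- choose the start
  obtain ⟨s, hs, hs1⟩ : ∃ s ≤ 1, (w (s + 1)).isRight = false := by
    rcases h : (w 1).isRight with _ | _
    · exact ⟨0, by omega, h⟩
    · obtain ⟨g, hg⟩ := adj_iff.mp (hadj 1 (by omega))
      exact ⟨1, le_rfl, by rw [hg.flip, h]; rfl⟩
  obtain ⟨g0, e0⟩ := adj_iff.mp (hadj s (by omega))
  obtain ⟨g1, e1⟩ := adj_iff.mp (hadj (s + 1) (by omega))
  obtain ⟨g2, e2⟩ := adj_iff.mp (hadj (s + 2) (by omega))
  obtain ⟨g3, e3⟩ := adj_iff.mp (hadj (s + 3) (by omega))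
  obtain ⟨g4, e4⟩ := adj_iff.mp (hadj (s + 4) (by omega))
  obtain ⟨g5, e5⟩ := adj_iff.mp (hadj (s + 5) (by omega))
  have t2 : (w (s + 2)).isRight = true := by rw [e1.flip, hs1]; rfl
  have t3 : (w (s + 3)).isRight = false := by rw [e2.flip, t2]; rfl
  have t4 : (w (s + 4)).isRight = true := by rw [e3.flip, t3]; rfl
  have t5 : (w (s + 5)).isRight = false := by rw [e4.flip, t4]; rfl
  obtain ⟨a1, b1⟩ := transA e0 e1 (hnb s (by omega)) hs1
  obtain ⟨a2, b2⟩ := transJ e1 e2 (hnb (s + 1) (by omega)) t2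
  obtain ⟨a3, b3⟩ := transA e2 e3 (hnb (s + 2) (by omega)) t3
  obtain ⟨a4, b4⟩ := transJ e3 e4 (hnb (s + 3) (by omega)) t4
  obtain ⟨a5, b5⟩ := transA e4 e5 (hnb (s + 4) (by omega)) t5
  refine le_trans ?_ (hN _ _ _ _ _ a1 b1 a2 b2 a3 b3 a4 b4 a5 b5)
  refine Set.encard_le_encard_of_injOn (f := fun h => g0⁻¹ * h * g0) ?_ ?_
  · rintro h ⟨h1, h2⟩
    have hf := hfix h h1 h2
    have f0 := edge_fix e0 (hf s (by omega)) (hf (s + 1) (by omega))
    have f1 := edge_fix e1 (hf (s + 1) (by omega)) (hf (s + 2) (by omega))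
    have f2 := edge_fix e2 (hf (s + 2) (by omega)) (hf (s + 3) (by omega))
    have f3 := edge_fix e3 (hf (s + 3) (by omega)) (hf (s + 4) (by omega))
    have f4 := edge_fix e4 (hf (s + 4) (by omega)) (hf (s + 5) (by omega))
    have f5 := edge_fix e5 (hf (s + 5) (by omega)) (hf (s + 6) (by omega))
    refine ⟨f0, ?_, ?_, ?_, ?_, ?_⟩
    · convert f1 using 1; group
    · convert f2 using 1; group
    · convert f3 using 1; group
    · convert f4 using 1; group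
    · convert f5 using 1; group
  · intro x _ y _ hxy
    simpa using hxy

end

end Pool.Agent.H40E9.TR
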