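import Pool.Agent.H40E9.TR.Plane
import Pool.Agent.H40E9.TR.Tree

/-!
# Ping-pong for affine and triangular bijections
-/

set_option autoImplicit false

namespace Pool.Agent.H40E9.TR

open Polynomial

section

variable {F K : Type} [Field F] [Field K] [Algebra F K]

/-- the coefficients of an affine bijection -/
def IsA (f : Equiv.Perm (K × K)) (a b c a' b' c' : K) : Prop :=
  ∀ x y : K, f (x, y) = (a * x + b * y + c, a' * x + b' * y + c')

/-- the coefficients of a triangular bijection -/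
def IsT (f : Equiv.Perm (K × K)) (a b c : K) (p : K[X]) : Prop :=
  ∀ x y : K, f (x, y) = (a * x + p.eval y, b * y + c)

theorem mem_aff {f : Equiv.Perm (K × K)} (hf : f ∈ aff F K) : ∃ a b c a' b' c' : K,
    a * b' - b * a' ≠ 0 ∧ IsA f a b c a' b' c' ∧
      (∀ z : K, z = a ∨ z = b ∨ z = c ∨ z = a' ∨ z = b' ∨ z = c' → z ∈ (algebraMap F K).range) := by
  obtain ⟨a, b, c, a', b', c', h, hf⟩ := hf
  refine ⟨algebraMap F K a, algebraMap F K b, algebraMap F K c, algebraMap F K a',
    algebraMap F K b', algebraMap F K c', ?_, ?_, ?_⟩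
  · rw [← map_mul, ← map_mul, ← map_sub]
    rwa [Ne, map_eq_zero]
  · intro x y
    rw [hf]
    simp [Algebra.smul_def]
  · rintro z (rfl | rfl | rfl | rfl | rfl | rfl) <;> exact ⟨_, rfl⟩

theorem mem_tri {f : Equiv.Perm (K × K)} (hf : f ∈ tri F K) : ∃ (a b c : K) (p : K[X]),
    a ≠ 0 ∧ b ≠ 0 ∧ IsT f a b c p := by
  obtain ⟨a, b, c, p, ha, hb, hf⟩ := hf
  refine ⟨algebraMap F K a, algebraMap F K b, algebraMap F K c, p.map (algebraMap F K), ?_, ?_, ?_⟩
  · rwa [Ne, map_eq_zero]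
  · rwa [Ne, map_eq_zero]
  · intro x y
    rw [hf]
    simp [Algebra.smul_def, aeval_def, eval_map]

/-- affine and not triangular: the second coordinate depends on `x` -/
theorem IsA.ne {f : Equiv.Perm (K × K)} {a b c a' b' c' : K} (h : IsA f a b c a' b' c')
    (hf : f ∈ aff F K) (ht : f ∉ tri F K) : a' ≠ 0 := by
  rintro rfl
  obtain ⟨A, B, C', A', B', D', hdet, hf⟩ := hf
  have e : ∀ x y : K, A' • x + B' • y + algebraMap F K D' = b' * y + c' := by
    intro x y
    have h1 := h x y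
    rw [hf x y] at h1
    simpa using congrArg Prod.snd h1
  have h0 : (A' : F) = 0 := by
    have h1 := e 0 0
    have h2 := e 1 0
    simp only [Algebra.smul_def, mul_zero, mul_one, zero_add, add_zero] at h1 h2
    rw [h1] at h2
    have h3 : algebraMap F K A' = 0 := by
      have := congrArg (fun z => z - c') h2
      simpa using this
    exact (map_eq_zero _).mp h3
  subst h0
  rw [mul_zero, sub_zero] at hdet
  refine ht ⟨A, B', D', C B * X + C C', left_ne_zero_of_mul hdet, right_ne_zero_of_mul hdet, ?_⟩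
  intro x y
  rw [hf]
  simp [Algebra.smul_def, add_assoc]

variable [Infinite K]

/-- triangular and not affine: the polynomial has degree at least two -/
theorem IsT.two_le {f : Equiv.Perm (K × K)} {a b c : K} {p : K[X]} (h : IsT f a b c p)
    (hf : f ∈ tri F K) (ht : f ∉ aff F K) : 2 ≤ p.natDegree := by
  by_contra hlt
  obtain ⟨A, B, D, P, hA, hB, hf⟩ := hf
  have e : ∀ x y : K, A • x + aeval y P = a * x + p.eval y := by
    intro x y
    have h1 := h x y
    rw [hf x y] at h1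
    exact congrArg Prod.fst h1
  have h0 : P.map (algebraMap F K) = p := by
    apply Polynomial.funext
    intro y
    have := e 0 y
    simpa [Algebra.smul_def, aeval_def, eval_map] using this
  have h1 : P.natDegree ≤ 1 := by
    rw [← Polynomial.natDegree_map (algebraMap F K), h0]; omega
  obtain ⟨u, v, rfl⟩ := Polynomial.exists_eq_X_add_C_of_natDegree_le_one h1
  refine ht ⟨A, u, v, 0, B, D, ?_, ?_⟩
  · rw [mul_zero, sub_zero]
    exact mul_ne_zero hA hB
  · intro x y
    rw [hf]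
    simp [Algebra.smul_def, add_assoc]

/-- the functions given by polynomials -/
def Rep (φ : K → K × K) (q₁ q₂ : K[X]) : Prop := ∀ k, φ k = (q₁.eval k, q₂.eval k)

theorem Rep.unique {φ : K → K × K} {q₁ q₂ r₁ r₂ : K[X]} (h : Rep φ q₁ q₂) (h' : Rep φ r₁ r₂) :
    q₁ = r₁ ∧ q₂ = r₂ := by
  constructor
  · apply Polynomial.funext
    intro k
    have := (h k).symm.trans (h' k)
    exact congrArg Prod.fst this
  · apply Polynomial.funext
    intro k
    have := (h k).symm.trans (h' k)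
    exact congrArg Prod.snd this

variable (K) in
/-- the first set of the ping-pong -/
def PX : Set (K → K × K) := {φ | ∃ q₁ q₂ : K[X], Rep φ q₁ q₂ ∧ q₁.natDegree ≤ q₂.natDegree ∧
  1 ≤ q₂.natDegree}

variable (K) in
/-- the second set of the ping-pong -/
def PY : Set (K → K × K) := {φ | ∃ q₁ q₂ : K[X], Rep φ q₁ q₂ ∧ q₂.natDegree < q₁.natDegree ∧
  2 ≤ q₁.natDegree}

theorem smul_rep (f : Equiv.Perm (K × K)) (φ : K → K × K) (k : K) : (f • φ) k = f (φ k) := rfl

theorem isA_rep {f : Equiv.Perm (K × K)} {a b c a' b' c' : K} (h : IsA f a b c a' b' c')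
    {φ : K → K × K} {q₁ q₂ : K[X]} (hφ : Rep φ q₁ q₂) :
    Rep (f • φ) (C a * q₁ + C b * q₂ + C c) (C a' * q₁ + C b' * q₂ + C c') := by
  intro k
  rw [smul_rep, hφ, h]
  simp

theorem isT_rep {f : Equiv.Perm (K × K)} {a b c : K} {p : K[X]} (h : IsT f a b c p)
    {φ : K → K × K} {q₁ q₂ : K[X]} (hφ : Rep φ q₁ q₂) :
    Rep (f • φ) (C a * q₁ + p.comp q₂) (C b * q₂ + C c) := by
  intro k
  rw [smul_rep, hφ, h]
  simp

theorem natDegree_aux {a b c : K} {q₁ q₂ : K[X]} (ha : a ≠ 0) (h : q₂.natDegree < q₁.natDegree) :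
    (C a * q₁ + C b * q₂ + C c).natDegree = q₁.natDegree := by
  have h1 : (C a * q₁).natDegree = q₁.natDegree := natDegree_C_mul ha
  have h2 : (C b * q₂).natDegree ≤ q₂.natDegree := natDegree_C_mul_le b q₂
  rw [natDegree_add_C, natDegree_add_eq_left_of_natDegree_lt (by omega), h1]

theorem natDegree_le_aux {a b c : K} {q₁ q₂ : K[X]} {n : ℕ} (h₁ : q₁.natDegree ≤ n)
    (h₂ : q₂.natDegree ≤ n) : (C a * q₁ + C b * q₂ + C c).natDegree ≤ n := by
  rw [natDegree_add_C]
  exact (natDegree_add_le _ _).trans (max_le ((natDegree_C_mul_le a q₁).trans h₁)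
    ((natDegree_C_mul_le b q₂).trans h₂))

theorem pingPong : PingPong ((aff F K).subgroupOf (gen F K)) ((tri F K).subgroupOf (gen F K))
    (PX K) (PY K) (fun k => (k, k)) (fun k => (k ^ 2, 0)) where
  hp := ⟨X, X, fun k => by simp, le_rfl, by simp⟩
  hq := ⟨X ^ 2, 0, fun k => by simp, by simp, by simp⟩
  jx := by
    rintro ⟨j, hj⟩ hj1 hj2 φ ⟨q₁, q₂, hφ, hle, h1⟩
    rw [Subgroup.mem_subgroupOf] at hj1 hj2
    obtain ⟨a, b, c, p, ha, hb, hT⟩ := mem_tri hj1
    have hn := hT.two_le hj1 hj2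
    refine ⟨_, _, isT_rep hT hφ, ?_, ?_⟩
    all_goals
      have h2 : (C a * q₁ + p.comp q₂).natDegree = p.natDegree * q₂.natDegree := by
        have h3 : (C a * q₁).natDegree ≤ q₁.natDegree := natDegree_C_mul_le a q₁
        rw [natDegree_add_eq_right_of_natDegree_lt, natDegree_comp]
        rw [natDegree_comp]
        nlinarith
      rw [h2]
    · rw [natDegree_add_C, natDegree_C_mul hb]
      nlinarith
    · nlinarith
  ay := by
    rintro ⟨j, hj⟩ hj1 hj2 φ ⟨q₁, q₂, hφ, hlt, h2⟩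
    rw [Subgroup.mem_subgroupOf] at hj1 hj2
    obtain ⟨a, b, c, a', b', c', -, hA, -⟩ := mem_aff hj1
    have ha' := hA.ne hj1 hj2
    refine ⟨_, _, isA_rep hA hφ, ?_, ?_⟩
    · rw [natDegree_aux ha' hlt]
      exact natDegree_le_aux le_rfl hlt.le
    · rw [natDegree_aux ha' hlt]; omega
  ap := by
    rintro ⟨j, hj⟩ hj1 ⟨q₁, q₂, hφ, hlt, h2⟩
    rw [Subgroup.mem_subgroupOf] at hj1
    obtain ⟨a, b, c, a', b', c', -, hA, -⟩ := mem_aff hj1
    have h3 := isA_rep hA (φ := fun k => (k, k)) (q₁ := X) (q₂ := X) (fun k => by simp)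
    obtain ⟨rfl, -⟩ := Rep.unique hφ h3
    have := natDegree_le_aux (a := a) (b := b) (c := c) (q₁ := (X : K[X])) (q₂ := X) (n := 1)
      (by simp) (by simp)
    omega
  jq := by
    rintro ⟨j, hj⟩ hj1 ⟨q₁, q₂, hφ, hle, h1⟩
    rw [Subgroup.mem_subgroupOf] at hj1
    obtain ⟨a, b, c, p, ha, hb, hT⟩ := mem_tri hj1
    have h3 := isT_rep hT (φ := fun k => (k ^ 2, 0)) (q₁ := X ^ 2) (q₂ := 0) (fun k => by simp)
    obtain ⟨-, rfl⟩ := Rep.unique hφ h3
    simp at h1

end

end Pool.Agent.H40E9.TR
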