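import Mathlib

/-!
# Affine and triangular bijections of the plane
-/

set_option autoImplicit false

namespace Pool.Agent.H40E9.TR

open Polynomial

section

variable (F K : Type) [Field F] [Field K] [Algebra F K]

/-- affine bijections of the plane `K × K` with coefficients in `F` -/
def aff : Subgroup (Equiv.Perm (K × K)) where
  carrier := {f | ∃ a b c a' b' c' : F, a * b' - b * a' ≠ 0 ∧
    ∀ x y : K, f (x, y) = (a • x + b • y + algebraMap F K c, a' • x + b' • y + algebraMap F K c')}
  one_mem' := ⟨1, 0, 0, 0, 1, 0, by simp, by simp⟩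
  mul_mem' := by
    rintro f g ⟨a, b, c, a', b', c', h, hf⟩ ⟨α, β, γ, α', β', γ', h', hg⟩
    refine ⟨a * α + b * α', a * β + b * β', a * γ + b * γ' + c, a' * α + b' * α', a' * β + b' * β',
      a' * γ + b' * γ' + c', ?_, ?_⟩
    · have := mul_ne_zero h h'
      intro h0
      apply this
      rw [← h0]
      ring
    · intro x y
      rw [Equiv.Perm.mul_apply, hg, hf]
      simp only [Algebra.smul_def, map_add, map_mul, Prod.mk.injEq]
      constructor <;> ring
  inv_mem' := by
    rintro f ⟨a, b, c, a', b', c', h, hf⟩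
    set D := a * b' - b * a' with hD
    refine ⟨b' / D, -b / D, (b * c' - b' * c) / D, -a' / D, a / D, (a' * c - a * c') / D, ?_, ?_⟩
    · have : b' / D * (a / D) - -b / D * (-a' / D) = 1 / D := by
        field_simp
        rw [hD]; ring
      rw [this]
      exact one_div_ne_zero h
    · intro x y
      rw [Equiv.Perm.inv_eq_iff_eq, hf]
      have hDK : algebraMap F K D ≠ 0 := by
        rwa [Ne, map_eq_zero]
      have hD' : algebraMap F K D = algebraMap F K a * algebraMap F K b' -
          algebraMap F K b * algebraMap F K a' := by rw [hD]; simp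
      simp only [Algebra.smul_def, map_div₀, map_sub, map_mul, map_neg, Prod.mk.injEq]
      constructor
      · field_simp
        rw [hD']; ring
      · field_simp
        rw [hD']; ring

/-- triangular bijections of the plane `K × K` with coefficients in `F` -/
def tri : Subgroup (Equiv.Perm (K × K)) where
  carrier := {f | ∃ (a b c : F) (p : F[X]), a ≠ 0 ∧ b ≠ 0 ∧
    ∀ x y : K, f (x, y) = (a • x + aeval y p, b • y + algebraMap F K c)}
  one_mem' := ⟨1, 1, 0, 0, one_ne_zero, one_ne_zero, by simp⟩
  mul_mem' := by
    rintro f g ⟨a, b, c, p, ha, hb, hf⟩ ⟨α, β, γ, q, hα, hβ, hg⟩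
    refine ⟨a * α, b * β, b * γ + c, C a * q + p.comp (C β * X + C γ), mul_ne_zero ha hα,
      mul_ne_zero hb hβ, ?_⟩
    intro x y
    rw [Equiv.Perm.mul_apply, hg, hf]
    simp only [Algebra.smul_def, map_add, map_mul, Prod.mk.injEq, aeval_comp, aeval_C, aeval_X]
    constructor <;> ring
  inv_mem' := by
    rintro f ⟨a, b, c, p, ha, hb, hf⟩
    refine ⟨a⁻¹, b⁻¹, - (c / b), - (C a⁻¹ * p.comp (C b⁻¹ * X - C (c / b))), inv_ne_zero ha,
      inv_ne_zero hb, ?_⟩
    intro x y
    rw [Equiv.Perm.inv_eq_iff_eq, hf]
    have haK : algebraMap F K a ≠ 0 := by rwa [Ne, map_eq_zero]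
    have hbK : algebraMap F K b ≠ 0 := by rwa [Ne, map_eq_zero]
    simp only [Algebra.smul_def, map_mul, map_neg, map_sub, Prod.mk.injEq, aeval_comp,
      aeval_C, aeval_X, map_inv₀, map_div₀]
    constructor
    · field_simp
      ring_nf
    · field_simp
      ring

/-- the group generated by the affine and the triangular bijections -/
def gen : Subgroup (Equiv.Perm (K × K)) := aff F K ⊔ tri F K

end

end Pool.Agent.H40E9.TR
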