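import Pool.Agent.H40E9.TR.Fin
import Pool.Agent.H40E9.TR.Mu

/-!
# Bijections given by affine and by triangular formulas
-/

set_option autoImplicit false

namespace Pool.Agent.H40E9.TR

open Polynomial
open Pool.Agent.H40E9.LP (GLs)

/-- `f (x, y) = (a x + b y + c, a' x + b' y + c')` -/
def IsAffine {K : Type} [Field K] (f : Equiv.Perm (K × K)) : Prop :=
  ∃ a b c a' b' c' : K, ∀ x y : K, f (x, y) = (a * x + b * y + c, a' * x + b' * y + c')

/-- `f (x, y) = (a x + p(y), b y + c)` for a polynomial `p` -/
def IsTriangular {K : Type} [Field K] (f : Equiv.Perm (K × K)) : Prop :=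
  ∃ (a b c : K) (p : K[X]), ∀ x y : K, f (x, y) = (a * x + p.eval y, b * y + c)

/-- the group generated by the affine and the triangular bijections of the plane -/
def PlaneGroup (K : Type) [Field K] : Subgroup (Equiv.Perm (K × K)) :=
  Subgroup.closure {f | IsAffine f ∨ IsTriangular f}

variable {K : Type} [Field K]

theorem IsAffine.mem {f : Equiv.Perm (K × K)} (h : IsAffine f) : f ∈ aff K K := by
  obtain ⟨a, b, c, a', b', c', hf⟩ := h
  refine ⟨a, b, c, a', b', c', ?_, fun x y => by rw [hf]; simp⟩
  intro h0
  -- a vector in the kernel of the linear part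
  have key : ∀ u v : K, a * u + b * v = 0 → a' * u + b' * v = 0 → (u, v) = ((0, 0) : K × K) := by
    intro u v h1 h2
    apply f.injective
    rw [hf, hf]
    simp [h1, h2]
  have k1 := key b' (-a') (by linear_combination h0) (by ring)
  have k2 := key b (-a) (by ring) (by linear_combination -h0)
  simp only [Prod.mk.injEq, neg_eq_zero] at k1 k2
  have k3 := key 1 0 (by rw [k2.2]; simp) (by rw [k1.2]; simp)
  simp at k3

theorem IsTriangular.mem {f : Equiv.Perm (K × K)} (h : IsTriangular f) : f ∈ tri K K := by
  obtain ⟨a, b, c, p, hf⟩ := h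
  refine ⟨a, b, c, p, ?_, ?_, fun x y => by rw [hf]; simp [aeval_def]⟩
  · rintro rfl
    have h1 : f (1, 0) = f (0, 0) := by rw [hf, hf]; simp
    have := f.injective h1
    simp at this
  · rintro rfl
    obtain ⟨⟨x, y⟩, h1⟩ := f.surjective (0, c + 1)
    rw [hf] at h1
    have := congrArg Prod.snd h1
    simp at this

theorem planeGroup_le : PlaneGroup K ≤ gen K K := by
  refine (Subgroup.closure_le _).mpr ?_
  rintro f (hf | hf)
  · exact (le_sup_left : aff K K ≤ gen K K) hf.mem
  · exact (le_sup_right : tri K K ≤ gen K K) hf.mem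

theorem C_planeGroup {C : ∀ (G : Type) [Group G], Prop} [CharZero K] (hC : ClosedT C)
    (hK : ∀ n : ℕ, C (GL (Fin n) K)) : C ↥(PlaneGroup K) :=
  hC.base.base.of_injective _ _ (Subgroup.inclusion planeGroup_le)
    (Subgroup.inclusion_injective planeGroup_le) (C_plane hC hK fun S => mu_finite S)

end Pool.Agent.H40E9.TR
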